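import Mathlib

open Finset

namespace Pool.Agent.Helper97.TB

/-- `x` lies in the shrunk half wave number `m` of scale `s`. -/
def Wave (s δ : ℝ) (m : ℤ) (x : ℝ) : Prop := (m : ℝ) * s ≤ x ∧ x ≤ m * s + s / 2 - δ

/-- `x` lies in some shrunk half wave of scale `s`. -/
def Good (s δ x : ℝ) : Prop := ∃ m : ℤ, Wave s δ m x

/-- `u` is an odd submultiple of `s`. -/
def Sub (s u : ℝ) : Prop := ∃ c : ℕ, s = (2 * c + 1) * u ∧ 0 < u

lemma Sub.le {s u : ℝ} (h : Sub s u) : u ≤ s := by
  obtain ⟨c, hc, hu⟩ := h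
  have : (0 : ℝ) ≤ c := Nat.cast_nonneg c
  nlinarith

/-- The refinement step. -/
lemma refine_wave {s u δ L R : ℝ} {m : ℤ} (hδ0 : 0 ≤ δ) (hsub : Sub s u) (hδu : δ ≤ u / 2)
    (hlen : u / 2 + δ ≤ R - L) (h1 : L ≤ m * s + s / 2 - δ) (h2 : (m : ℝ) * s ≤ R)
    (hLR : L ≤ R) (hne : (m : ℝ) * s ≤ m * s + s / 2 - δ) :
    ∃ m' : ℤ, (m : ℝ) * s ≤ m' * u ∧ m' * u + u / 2 - δ ≤ m * s + s / 2 - δ ∧
      L ≤ m' * u + u / 2 - δ ∧ (m' : ℝ) * u ≤ R := by
  obtain ⟨c, hc, hu⟩ := hsub
  set y := min R (m * s + s / 2 - δ) with hy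
  have hyR : y ≤ R := min_le_left _ _
  have hyA : y ≤ m * s + s / 2 - δ := min_le_right _ _
  have hy0 : (m : ℝ) * s ≤ y := le_min h2 hne
  set k := ⌊(y - m * s) / u⌋ with hk
  have hk1 : (k : ℝ) * u ≤ y - m * s := by
    have := Int.floor_le ((y - m * s) / u)
    rwa [le_div_iff₀ hu] at this
  have hk2 : y - m * s < (k + 1) * u := by
    have := Int.lt_floor_add_one ((y - m * s) / u)
    rwa [div_lt_iff₀ hu] at this
  have hk0 : 0 ≤ k := by
    apply Int.floor_nonneg.2
    apply div_nonneg _ hu.le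
    linarith
  have hk0R : (0 : ℝ) ≤ k := by exact_mod_cast hk0
  have hδ' : δ ≤ u / 2 := hδu
  -- k ≤ c
  have hkc : k ≤ c := by
    by_contra hcon
    push Not at hcon
    have h3 : (c : ℤ) + 1 ≤ k := hcon
    have h4 : (c : ℝ) + 1 ≤ k := by exact_mod_cast h3
    have h5 : ((c : ℝ) + 1) * u ≤ k * u := mul_le_mul_of_nonneg_right h4 hu.le
    have h6 : y - m * s ≤ s / 2 - δ := by linarith
    have h7 : s / 2 = c * u + u / 2 := by rw [hc]; ring
    linarith
  have hkcR : (k : ℝ) ≤ c := by exact_mod_cast hkc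
  refine ⟨m * (2 * c + 1) + k, ?_, ?_, ?_, ?_⟩
  · push_cast
    rw [hc]
    nlinarith
  · push_cast
    rw [hc]
    nlinarith
  · push_cast
    have e : ((m : ℝ) * (2 * c + 1) + k) * u = m * s + k * u := by rw [hc]; ring
    rw [e]
    by_contra hcon
    push Not at hcon
    rcases min_choice R (m * s + s / 2 - δ) with hm | hm
    · have : y = R := by rw [hy, hm]
      nlinarith
    · have hyy : y = m * s + s / 2 - δ := by rw [hy, hm]
      have h7 : s / 2 = c * u + u / 2 := by rw [hc]; ring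
      have h8 : (c : ℝ) * u < (k + 1) * u := by linarith
      have h9 : (c : ℝ) < k + 1 := lt_of_mul_lt_mul_right h8 hu.le
      have h10 : (c : ℤ) < k + 1 := by exact_mod_cast h9
      have h11 : k = c := by omega
      have h12 : (k : ℝ) = c := by exact_mod_cast h11
      rw [h12] at hcon
      linarith
  · push_cast
    have e : ((m : ℝ) * (2 * c + 1) + k) * u = m * s + k * u := by rw [hc]; ring
    rw [e]
    linarith

/-- The chain lemma: two linked waves of comparable scales can be refined down two lists of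
scales, processed in decreasing order. -/
lemma chain {δ : ℝ} (hδ : 0 ≤ δ) : ∀ (n : ℕ) (s t : ℝ) (ls lt : List ℝ),
    ls.length + lt.length = n → (s :: ls).Pairwise Sub → (t :: lt).Pairwise Sub →
    (∀ u ∈ s :: ls, ∀ v ∈ t :: lt, (u ≤ v → u + 4 * δ ≤ v) ∧ (v ≤ u → v + 4 * δ ≤ u)) →
    (∀ u ∈ s :: ls, 4 * δ ≤ u) → (∀ v ∈ t :: lt, 4 * δ ≤ v) → 0 < s → 0 < t →
    (∀ u ∈ ls, u ≤ t) → (∀ v ∈ lt, v ≤ s) →
    ∀ m m' : ℤ, (m : ℝ) * s ≤ m' * t + t / 2 - δ → (m' : ℝ) * t ≤ m * s + s / 2 - δ →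
    ∃ x, Wave s δ m x ∧ Wave t δ m' x ∧ (∀ u ∈ ls, Good u δ x) ∧ (∀ v ∈ lt, Good v δ x) := by
  intro n
  induction n with
  | zero =>
    intro s t ls lt hlen _ _ _ hs4 ht4 hs ht _ _ m m' h1 h2
    have hls : ls = [] := List.length_eq_zero_iff.1 (by omega)
    have hlt : lt = [] := List.length_eq_zero_iff.1 (by omega)
    subst hls
    subst hlt
    have hs4' := hs4 s (by simp)
    have ht4' := ht4 t (by simp)
    refine ⟨max (m * s) (m' * t), ⟨le_max_left _ _, ?_⟩, ⟨le_max_right _ _, ?_⟩, by simp, by simp⟩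
    · apply max_le _ h2
      linarith
    · apply max_le h1
      linarith
  | succ n ih =>
    intro s t ls lt hlen hps hpt hsep hs4 ht4 hs ht hls hlt m m' h1 h2
    have hs4' := hs4 s (by simp)
    have ht4' := ht4 t (by simp)
    -- refining the first base
    have refS : ∀ u ls', ls = u :: ls' → (∀ v ∈ lt, v ≤ u) →
        ∃ x, Wave s δ m x ∧ Wave t δ m' x ∧ (∀ u ∈ ls, Good u δ x) ∧ (∀ v ∈ lt, Good v δ x) := by
      rintro u ls' rfl hvu
      have hsu : Sub s u := List.rel_of_pairwise_cons hps (by simp)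
      have hu : 0 < u := by obtain ⟨c, _, hu⟩ := hsu; exact hu
      have hut : u ≤ t := hls u (by simp)
      have hut4 : u + 4 * δ ≤ t := (hsep u (by simp) t (by simp)).1 hut
      have hu4 : 4 * δ ≤ u := hs4 u (by simp)
      obtain ⟨m₁, g1, g2, g3, g4⟩ := refine_wave (m := m) (L := m' * t) (R := m' * t + t / 2 - δ)
        hδ hsu (by linarith) (by linarith) h2 h1 (by linarith) (by linarith)
      obtain ⟨x, hx1, hx2, hx3, hx4⟩ := ih u t ls' lt (by simp at hlen; omega)
        (List.Pairwise.of_cons hps) hpt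
        (fun a ha b hb => hsep a (List.mem_cons_of_mem _ ha) b hb)
        (fun a ha => hs4 a (List.mem_cons_of_mem _ ha)) ht4 hu ht
        (fun a ha => hls a (List.mem_cons_of_mem _ ha)) hvu m₁ m' g4 g3
      refine ⟨x, ⟨g1.trans hx1.1, hx1.2.trans g2⟩, hx2, ?_, hx4⟩
      intro a ha
      rcases List.mem_cons.1 ha with rfl | ha
      · exact ⟨m₁, hx1⟩
      · exact hx3 a ha
    -- refining the second base
    have refT : ∀ v lt', lt = v :: lt' → (∀ u ∈ ls, u ≤ v) →
        ∃ x, Wave s δ m x ∧ Wave t δ m' x ∧ (∀ u ∈ ls, Good u δ x) ∧ (∀ v ∈ lt, Good v δ x) := by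
      rintro v lt' rfl huv
      have htv : Sub t v := List.rel_of_pairwise_cons hpt (by simp)
      have hv : 0 < v := by obtain ⟨c, _, hu⟩ := htv; exact hu
      have hvs : v ≤ s := hlt v (by simp)
      have hvs4 : v + 4 * δ ≤ s := (hsep s (by simp) v (by simp)).2 hvs
      have hv4 : 4 * δ ≤ v := ht4 v (by simp)
      obtain ⟨m₁, g1, g2, g3, g4⟩ := refine_wave (m := m') (L := m * s) (R := m * s + s / 2 - δ)
        hδ htv (by linarith) (by linarith) h1 h2 (by linarith) (by linarith)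
      obtain ⟨x, hx1, hx2, hx3, hx4⟩ := ih s v ls lt' (by simp at hlen; omega)
        hps (List.Pairwise.of_cons hpt)
        (fun a ha b hb => hsep a ha b (List.mem_cons_of_mem _ hb))
        hs4 (fun a ha => ht4 a (List.mem_cons_of_mem _ ha)) hs hv huv
        (fun a ha => hlt a (List.mem_cons_of_mem _ ha)) m m₁ g3 g4
      refine ⟨x, hx1, ⟨g1.trans hx2.1, hx2.2.trans g2⟩, hx3, ?_⟩
      intro a ha
      rcases List.mem_cons.1 ha with rfl | ha
      · exact ⟨m₁, hx2⟩
      · exact hx4 a ha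
    rcases ls with _ | ⟨u, ls'⟩
    · rcases lt with _ | ⟨v, lt'⟩
      · simp at hlen
      · exact refT v lt' rfl (by simp)
    · rcases lt with _ | ⟨v, lt'⟩
      · exact refS u ls' rfl (by simp)
      · rcases le_total v u with h | h
        · apply refS u ls' rfl
          intro b hb
          rcases List.mem_cons.1 hb with rfl | hb
          · exact h
          · have : Sub v b := List.rel_of_pairwise_cons (List.Pairwise.of_cons hpt) hb
            exact this.le.trans h
        · apply refT v lt' rfl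
          intro a ha
          rcases List.mem_cons.1 ha with rfl | ha
          · exact h
          · have : Sub u a := List.rel_of_pairwise_cons (List.Pairwise.of_cons hps) ha
            exact this.le.trans h

end Pool.Agent.Helper97.TB
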