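import Pool.Agent.Helper97.TB.Window

open Finset

namespace Pool.Agent.Helper97.TB

lemma Good.shift {s δ x y : ℝ} (h : Good s δ x) (hxy : x ≤ y) (hyx : y ≤ x + δ) : Good s 0 y := by
  obtain ⟨m, h1, h2⟩ := h
  exact ⟨m, h1.trans hxy, by linarith⟩

/-- A good scale gives no carry. -/
lemma not_carry {p i : ℕ} (hp : Odd p) {x : ℝ} (hx : 0 ≤ x) (h : Good ((p : ℝ) ^ i) 0 x) :
    2 * (⌊x⌋₊ % p ^ i) < p ^ i := by
  obtain ⟨m, h1, h2⟩ := h
  have hp0 : 0 < p := hp.pos
  set n := ⌊x⌋₊ with hn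
  have hpi : 0 < p ^ i := Nat.pow_pos hp0
  have hnx : (n : ℝ) ≤ x := Nat.floor_le hx
  have hxn : x < (n : ℝ) + 1 := Nat.lt_floor_add_one x
  have e1 : ((m * (p ^ i : ℕ) : ℤ) : ℝ) = (m : ℝ) * (p : ℝ) ^ i := by push_cast; ring
  have hmn : m * (p ^ i : ℕ) ≤ (n : ℤ) := by
    have : ((m * (p ^ i : ℕ) : ℤ) : ℝ) < (n : ℝ) + 1 := by
      rw [e1]
      linarith
    have h3 : m * (p ^ i : ℕ) < (n : ℤ) + 1 := by exact_mod_cast this
    omega
  have hmn2 : 2 * ((n : ℤ) - m * (p ^ i : ℕ)) ≤ (p ^ i : ℕ) := by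
    have : (2 * ((n : ℝ) - m * (p : ℝ) ^ i)) ≤ (p : ℝ) ^ i := by linarith
    have h3 : (((2 * ((n : ℤ) - m * (p ^ i : ℕ)) : ℤ)) : ℝ) ≤ (((p ^ i : ℕ) : ℤ) : ℝ) := by
      push_cast
      linarith
    exact_mod_cast h3
  have hpiZ : (0 : ℤ) < ((p ^ i : ℕ) : ℤ) := by exact_mod_cast hpi
  have hmod : ((n % p ^ i : ℕ) : ℤ) = (n : ℤ) - m * (p ^ i : ℕ) := by
    have h3 : (n : ℤ) % ((p ^ i : ℕ) : ℤ) = ((n : ℤ) - m * (p ^ i : ℕ)) := by
      have h4 : (n : ℤ) = ((n : ℤ) - m * (p ^ i : ℕ)) + m * ((p ^ i : ℕ) : ℤ) := by ring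
      rw [h4, Int.add_mul_emod_self_right]
      rw [← h4]
      apply Int.emod_eq_of_lt
      · omega
      · omega
    rw [← h3]
    exact Int.natCast_mod n (p ^ i)
  have hle : 2 * (n % p ^ i) ≤ p ^ i := by
    have : (2 * ((n % p ^ i : ℕ) : ℤ)) ≤ ((p ^ i : ℕ) : ℤ) := by rw [hmod]; exact hmn2
    exact_mod_cast this
  have hodd : Odd (p ^ i) := hp.pow
  rcases lt_or_eq_of_le hle with h | h
  · exact h
  · exfalso
    rw [← h] at hodd
    exact (Nat.not_odd_iff_even.2 (even_two_mul _)) hodd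

lemma kummer {p n b : ℕ} (hp : p.Prime) (hb : Nat.log p (2 * n) < b) :
    (Nat.centralBinom n).factorization p
      = ((Finset.Ico 1 b).filter (fun i => p ^ i ≤ 2 * (n % p ^ i))).card := by
  have h := Nat.factorization_choose' (p := p) (n := n) (k := n) (b := b) hp (by
    rwa [← two_mul])
  have e : Nat.centralBinom n = (n + n).choose n := by
    rw [Nat.centralBinom, two_mul]
  rw [e, h]
  congr 1
  refine Finset.filter_congr fun i _ => ?_
  rw [two_mul]

/-- levels `i < N` with `A < p^i ≤ B` -/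
noncomputable def lv (p N : ℕ) (A B : ℝ) : Finset ℕ :=
  (range N).filter (fun i => A < (p : ℝ) ^ i ∧ (p : ℝ) ^ i ≤ B)

lemma mem_lv {p N : ℕ} {A B : ℝ} {i : ℕ} :
    i ∈ lv p N A B ↔ i < N ∧ A < (p : ℝ) ^ i ∧ (p : ℝ) ^ i ≤ B := by
  unfold lv
  simp

lemma lv_card {p N : ℕ} (hp : 2 ≤ p) {A B : ℝ} (hA : 0 < A) (hAB : A ≤ B) :
    (p : ℝ) ^ (lv p N A B).card ≤ p * (B / A) := by
  have hpR : (1 : ℝ) ≤ p := by exact_mod_cast (show 1 ≤ p by omega)
  have hBA : 1 ≤ B / A := by rwa [le_div_iff₀ hA, one_mul]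
  rcases (lv p N A B).eq_empty_or_nonempty with h | h
  · rw [h, Finset.card_empty, pow_zero]
    nlinarith
  · set a := (lv p N A B).min' h with ha
    set b := (lv p N A B).max' h with hb
    have haM := mem_lv.1 ((lv p N A B).min'_mem h)
    have hbM := mem_lv.1 ((lv p N A B).max'_mem h)
    rw [← ha] at haM
    rw [← hb] at hbM
    have hab : a ≤ b := Finset.min'_le_max' _ h
    have hsub : lv p N A B ⊆ Finset.Icc a b := by
      intro i hi
      rw [Finset.mem_Icc]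
      exact ⟨Finset.min'_le _ _ hi, Finset.le_max' _ _ hi⟩
    have hc : (lv p N A B).card ≤ (b - a) + 1 := by
      have := Finset.card_le_card hsub
      rw [Nat.card_Icc] at this
      omega
    have h1 : (p : ℝ) ^ (b - a) ≤ B / A := by
      rw [le_div_iff₀ hA]
      have h2 : (p : ℝ) ^ b = p ^ (b - a) * p ^ a := by
        rw [← pow_add]
        congr 1
        omega
      have h3 : (p : ℝ) ^ (b - a) * A ≤ p ^ (b - a) * p ^ a :=
        mul_le_mul_of_nonneg_left haM.2.1.le (by positivity)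
      calc _ ≤ _ := h3
        _ = (p : ℝ) ^ b := h2.symm
        _ ≤ B := hbM.2.2
    calc (p : ℝ) ^ (lv p N A B).card ≤ (p : ℝ) ^ ((b - a) + 1) := pow_le_pow_right₀ hpR hc
      _ = p * p ^ (b - a) := by rw [pow_succ]; ring
      _ ≤ p * (B / A) := mul_le_mul_of_nonneg_left h1 (by linarith)

lemma nk_card {p K : ℕ} (hp : 2 ≤ p) (hK : 1 ≤ K) {S : Finset ℕ} {B : ℝ} (hB : 1 ≤ B)
    (hgap : ∀ i ∈ S, ∀ j ∈ S, i < j → i + K < j) (hS : ∀ i ∈ S, (p : ℝ) ^ i ≤ B) :
    (p : ℝ) ^ S.card ≤ p * B ^ ((1 : ℝ) / K) := by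
  have hpR : (1 : ℝ) ≤ p := by exact_mod_cast (show 1 ≤ p by omega)
  have hKR : (0 : ℝ) < K := by exact_mod_cast hK
  have hB1 : 1 ≤ B ^ ((1 : ℝ) / K) := Real.one_le_rpow hB (by positivity)
  rcases S.eq_empty_or_nonempty with h | h
  · rw [h, Finset.card_empty, pow_zero]
    nlinarith
  · set M := S.max' h with hM
    have hMS : M ∈ S := S.max'_mem h
    have hc : S.card ≤ M / K + 1 := by
      have : S.card ≤ (range (M / K + 1)).card := by
        apply Finset.card_le_card_of_injOn (fun i => i / K)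
        · intro i hi
          rw [Finset.mem_coe, Finset.mem_range]
          have : i ≤ M := Finset.le_max' _ _ hi
          exact Nat.lt_succ_of_le (Nat.div_le_div_right this)
        · intro i hi j hj hij
          by_contra hne
          rcases lt_or_gt_of_ne hne with hlt | hgt
          · have h1 := hgap i hi j hj hlt
            have h2 : (i + K) / K ≤ j / K := Nat.div_le_div_right h1.le
            rw [Nat.add_div_right _ hK] at h2
            simp only at hij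
            omega
          · have h1 := hgap j hj i hi hgt
            have h2 : (j + K) / K ≤ i / K := Nat.div_le_div_right h1.le
            rw [Nat.add_div_right _ hK] at h2
            simp only at hij
            omega
      rwa [Finset.card_range] at this
    have h1 : (p : ℝ) ^ (M / K) ≤ B ^ ((1 : ℝ) / K) := by
      have h2 : ((p : ℝ) ^ (M / K)) ^ K ≤ B := by
        rw [← pow_mul]
        refine le_trans ?_ (hS M hMS)
        exact pow_le_pow_right₀ hpR (Nat.div_mul_le_self M K)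
      have h3 : (p : ℝ) ^ (M / K) = (((p : ℝ) ^ (M / K)) ^ K) ^ ((1 : ℝ) / K) := by
        rw [one_div, Real.pow_rpow_inv_natCast (by positivity) (by omega)]
      rw [h3]
      exact Real.rpow_le_rpow (by positivity) h2 (by positivity)
    calc (p : ℝ) ^ S.card ≤ (p : ℝ) ^ (M / K + 1) := pow_le_pow_right₀ hpR hc
      _ = p * p ^ (M / K) := by rw [pow_succ]; ring
      _ ≤ p * B ^ ((1 : ℝ) / K) := mul_le_mul_of_nonneg_left h1 (by linarith)

/-- the start of a window -/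
lemma start {p : ℕ} (hp : 2 ≤ p) {q w T : ℝ} (hq : 0 < q) (hw : 1 ≤ w) (hT : w * q * p ^ 2 ≤ T)
    {keep : ℕ → Prop} (hk : ∀ i, w ≤ (p : ℝ) ^ i → keep i ∨ keep (i + 1)) :
    ∃ i₀, keep i₀ ∧ w ≤ (p : ℝ) ^ i₀ ∧ q * (p : ℝ) ^ i₀ ≤ T ∧ T < q * p ^ 2 * (p : ℝ) ^ i₀ ∧
      ∀ i, keep i → q * (p : ℝ) ^ i ≤ T → i ≤ i₀ := by
  have hp1 : (1 : ℝ) < p := by exact_mod_cast (show 1 < p by omega)
  have hp0 : (0 : ℝ) < p := by linarith
  have hwp : w * (p : ℝ) ^ 2 ≤ T / q := by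
    rw [le_div_iff₀ hq]
    linarith
  have hp2 : (1 : ℝ) ≤ (p : ℝ) ^ 2 := one_le_pow₀ hp1.le
  have h1 : 1 ≤ T / q := by nlinarith
  obtain ⟨I, hI1, hI2⟩ := exists_nat_pow_near h1 hp1
  have hIw : w * p < (p : ℝ) ^ I := by
    have h2 : w * (p : ℝ) ^ 2 < (p : ℝ) ^ (I + 1) := lt_of_le_of_lt hwp hI2
    have h3 : (p : ℝ) ^ (I + 1) = p ^ I * p := pow_succ _ _
    rw [h3] at h2
    have h4 : (w * p) * p < (p : ℝ) ^ I * p := by
      calc (w * p) * p = w * (p : ℝ) ^ 2 := by ring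
        _ < _ := h2
    exact lt_of_mul_lt_mul_right h4 hp0.le
  have hI0 : 0 < I := by
    rcases Nat.eq_zero_or_pos I with h | h
    · rw [h, pow_zero] at hIw
      nlinarith
    · exact h
  have hpp : (p : ℝ) ^ I = p ^ (I - 1) * p := by
    rw [← pow_succ]
    congr 1
    omega
  have hI1w : w ≤ (p : ℝ) ^ (I - 1) := by
    rw [hpp] at hIw
    exact (lt_of_mul_lt_mul_right hIw hp0.le).le
  have hqI : q * (p : ℝ) ^ I ≤ T := by
    rw [le_div_iff₀ hq] at hI1
    linarith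
  have hTI : T < q * ((p : ℝ) ^ I * p) := by
    rw [div_lt_iff₀ hq, pow_succ] at hI2
    linarith
  have hmax : ∀ i, q * (p : ℝ) ^ i ≤ T → i ≤ I := by
    intro i hi
    by_contra hcon
    push Not at hcon
    have h5 : (p : ℝ) ^ (I + 1) ≤ (p : ℝ) ^ i := pow_le_pow_right₀ hp1.le hcon
    have h6 : q * (p : ℝ) ^ (I + 1) ≤ q * p ^ i := mul_le_mul_of_nonneg_left h5 hq.le
    rw [pow_succ] at h6
    linarith
  by_cases hkI : keep I
  · refine ⟨I, hkI, hI1w.trans ?_, hqI, ?_, fun i _ hi => hmax i hi⟩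
    · exact pow_le_pow_right₀ hp1.le (by omega)
    · have h7 : q * ((p : ℝ) ^ I * p) ≤ q * p ^ 2 * (p : ℝ) ^ I := by
        have : (p : ℝ) ≤ p ^ 2 := by nlinarith
        have h8 : (p : ℝ) * (q * p ^ I) ≤ p ^ 2 * (q * p ^ I) :=
          mul_le_mul_of_nonneg_right this (by positivity)
        nlinarith
      linarith
  · have hk1 : keep (I - 1) := by
      rcases hk (I - 1) hI1w with h | h
      · exact h
      · rw [Nat.sub_add_cancel hI0] at h
        exact absurd h hkI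
    refine ⟨I - 1, hk1, hI1w, ?_, ?_, ?_⟩
    · refine le_trans ?_ hqI
      exact mul_le_mul_of_nonneg_left (pow_le_pow_right₀ hp1.le (by omega)) hq.le
    · calc T < q * ((p : ℝ) ^ I * p) := hTI
        _ = q * p ^ 2 * (p : ℝ) ^ (I - 1) := by rw [hpp]; ring
    · intro i hki hi
      have h1 := hmax i hi
      rcases Nat.lt_or_eq_of_le h1 with h | h
      · omega
      · rw [h] at hki
        exact absurd hki hkI

end Pool.Agent.Helper97.TB
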