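import Pool.Agent.Helper97.TB.Two

open Finset Filter

namespace Pool.Agent.Helper97.TB

lemma ev {e : ℝ} (he : 0 < e) (C : ℝ) : ∀ᶠ X : ℝ in atTop, C ≤ X ^ e :=
  (tendsto_rpow_atTop he).eventually_ge_atTop C

lemma fin_le {X n C α e : ℝ} (hX : 0 < X) (hα : 0 ≤ α) (hn : X / 2 ≤ n) (h : C * 2 ^ α ≤ X ^ e) :
    C * X ^ (α - e) ≤ n ^ α := by
  have h2 : (0 : ℝ) < 2 ^ α := by positivity
  have hXe : 0 < X ^ e := by positivity
  have hXα : 0 < X ^ α := by positivity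
  have h1 : C ≤ X ^ e / 2 ^ α := by rwa [le_div_iff₀ h2]
  calc C * X ^ (α - e) = C * (X ^ α / X ^ e) := by rw [Real.rpow_sub hX]
    _ ≤ X ^ e / 2 ^ α * (X ^ α / X ^ e) := mul_le_mul_of_nonneg_right h1 (by positivity)
    _ = X ^ α / 2 ^ α := by field_simp
    _ = (X / 2) ^ α := by rw [Real.div_rpow hX.le (by norm_num)]
    _ ≤ n ^ α := Real.rpow_le_rpow (by positivity) hn hα

lemma fact_eq_bad {p : ℕ} (hp : p.Prime) (n : ℕ) :
    (Nat.centralBinom n).factorization p = (bad p (Nat.log p (2 * n) + 1) n).card :=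
  kummer hp (Nat.lt_succ_self _)

lemma prime_odd3 {p : ℕ} (hp : p.Prime) (h2 : p ≠ 2) : Odd p ∧ 3 ≤ p := by
  refine ⟨hp.odd_of_ne_two h2, ?_⟩
  have := hp.two_le
  omega

/-- Three windows, all exponents positive. -/
theorem three_exp {p q r : ℕ} (hp : p.Prime) (hq : q.Prime) (hr : r.Prime) (hp2 : p ≠ 2)
    (hq2 : q ≠ 2) (hr2 : r ≠ 2) (hpq : p ≠ q) (hqr : q ≠ r) {α β γ : ℝ} (hα : 0 < α)
    (hβ : 0 < β) (hγ : 0 < γ) (hsum : 1 < α + β + γ) (N : ℕ) :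
    ∃ n : ℕ, N ≤ n ∧ (p : ℝ) ^ ((Nat.centralBinom n).factorization p) ≤ (n : ℝ) ^ α ∧
      (q : ℝ) ^ ((Nat.centralBinom n).factorization q) ≤ (n : ℝ) ^ β ∧
      (r : ℝ) ^ ((Nat.centralBinom n).factorization r) ≤ (n : ℝ) ^ γ := by
  obtain ⟨hpo, hp3⟩ := prime_odd3 hp hp2
  obtain ⟨hqo, hq3⟩ := prime_odd3 hq hq2
  obtain ⟨hro, hr3⟩ := prime_odd3 hr hr2
  have hcpq : Nat.Coprime p q := (Nat.coprime_primes hp hq).2 hpq
  have hcrq : Nat.Coprime r q := (Nat.coprime_primes hr hq).2 hqr.symm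
  set s := α + β + γ with hs
  have hs0 : 0 < s := by linarith
  set α₁ := α / s with hα₁
  set β₁ := β / s with hβ₁
  set γ₁ := γ / s with hγ₁
  have hα₁0 : 0 < α₁ := by positivity
  have hβ₁0 : 0 < β₁ := by positivity
  have hγ₁0 : 0 < γ₁ := by positivity
  have hαlt : α₁ < α := div_lt_self hα hsum
  have hβlt : β₁ < β := div_lt_self hβ hsum
  have hγlt : γ₁ < γ := div_lt_self hγ hsum
  have hone : α₁ + β₁ + γ₁ = 1 := by
    rw [hα₁, hβ₁, hγ₁, ← add_div, ← add_div, ← hs]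
    exact div_self hs0.ne'
  obtain ⟨K', hK'⟩ := exists_nat_one_div_lt (show 0 < min (α - α₁) (γ - γ₁) by
    apply lt_min <;> linarith)
  set K : ℕ := K' + 1 with hK
  have hKR : (1 : ℝ) / K < min (α - α₁) (γ - γ₁) := by
    rw [hK]
    push_cast
    exact hK'
  have hK1 : 1 ≤ K := by omega
  have hKα : (1 : ℝ) / K < α - α₁ := hKR.trans_le (min_le_left _ _)
  have hKγ : (1 : ℝ) / K < γ - γ₁ := hKR.trans_le (min_le_right _ _)
  set e₁ := α - (α₁ + 1 / K) with he₁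
  set e₂ := β - β₁ with he₂
  set e₃ := γ - (γ₁ + 1 / K) with he₃
  have he₁0 : 0 < e₁ := by linarith
  have he₂0 : 0 < e₂ := by linarith
  have he₃0 : 0 < e₃ := by linarith
  set Cp : ℝ := p * (6 * q * p ^ 2) * (p * (128 * r ^ K * r * p ^ 2)) * p with hCp
  set Cq : ℝ := q * (6 * q * p ^ 2) * (q * (128 * p ^ K * q * r ^ 2)) * (q * 2) with hCq
  set Cr : ℝ := r * (6 * (128 * p ^ K) * q * r ^ 2) * (r * (128 * r ^ K * r * p ^ 2)) * r with hCr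
  obtain ⟨X, hX⟩ := ((((((((ev hγ₁0 (q * p ^ 2)).and (ev hα₁0 (q * r ^ 2 * (128 * p ^ K)))).and
    (ev hβ₁0 (1 * r * p ^ 2 * (128 * r ^ K)))).and (ev he₁0 (Cp * 2 ^ α))).and
    (ev he₂0 (Cq * 2 ^ β))).and (ev he₃0 (Cr * 2 ^ γ))).and
    (eventually_ge_atTop (2 : ℝ))).and (eventually_ge_atTop ((N : ℝ) + 1))).exists
  obtain ⟨⟨⟨⟨⟨⟨⟨c1, c2⟩, c3⟩, c4⟩, c5⟩, c6⟩, c7⟩, c8⟩ := hX
  have hX0 : 0 < X := by linarith
  have hX1 : 1 ≤ X := by linarith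
  set w₁ := X ^ (α₁ + β₁) with hw₁
  set w₂ := X ^ β₁ with hw₂
  have hw₁1 : 1 ≤ w₁ := Real.one_le_rpow hX1 (by linarith)
  have hw₂1 : 1 ≤ w₂ := Real.one_le_rpow hX1 (by linarith)
  have hw₁0 : 0 < w₁ := by linarith
  have hw₂0 : 0 < w₂ := by linarith
  have e1 : w₁ * X ^ γ₁ = X := by
    rw [hw₁, ← Real.rpow_add hX0, hone, Real.rpow_one]
  have e2 : w₂ * X ^ α₁ = w₁ := by
    rw [hw₁, hw₂, ← Real.rpow_add hX0, add_comm]
  have hpK : (0 : ℝ) < (p : ℝ) ^ K := by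
    have : (0 : ℝ) < p := by exact_mod_cast hp.pos
    positivity
  have hrK : (0 : ℝ) < (r : ℝ) ^ K := by
    have : (0 : ℝ) < r := by exact_mod_cast hr.pos
    positivity
  obtain ⟨x, hx1, hx2, b1, b2, b3⟩ := three_core hpo hqo hro hp3 hq3 hr3 hcpq hcrq hK1
    (w₁ := w₁) (w₂ := w₂) (X := X) hw₁1 hw₂1
    (by
      have := mul_le_mul_of_nonneg_left c1 hw₁0.le
      rw [e1] at this
      linarith)
    (by
      rw [le_div_iff₀ (by positivity)]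
      have := mul_le_mul_of_nonneg_left c2 hw₂0.le
      rw [e2] at this
      linarith)
    (by
      rw [le_div_iff₀ (by positivity)]
      exact c3)
  set n := ⌊x⌋₊ with hn
  have hx0 : 0 ≤ x := by linarith
  have hnx : x < (n : ℝ) + 1 := Nat.lt_floor_add_one x
  have hnX : X / 2 ≤ (n : ℝ) := by linarith
  refine ⟨n, ?_, ?_, ?_, ?_⟩
  · have : (N : ℝ) < (n : ℝ) + 1 := by linarith
    have h' : N < n + 1 := by exact_mod_cast this
    omega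
  · rw [fact_eq_bad hp]
    refine (b1 _).trans (le_trans (le_of_eq ?_) (fin_le hX0 hα.le hnX c4))
    have e3 : α - e₁ = α₁ + 1 / K := by rw [he₁]; ring
    have e4 : w₁ / w₂ = X ^ α₁ := by
      rw [← e2]
      field_simp
    rw [e3, Real.rpow_add hX0, e4, hCp]
    ring
  · rw [fact_eq_bad hq]
    refine (b2 _).trans (le_trans (le_of_eq ?_) (fin_le hX0 hβ.le hnX c5))
    have e3 : β - e₂ = β₁ := by rw [he₂]; ring
    rw [e3, hCq]
    ring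
  · rw [fact_eq_bad hr]
    refine (b3 _).trans (le_trans (le_of_eq ?_) (fin_le hX0 hγ.le hnX c6))
    have e3 : γ - e₃ = γ₁ + 1 / K := by rw [he₃]; ring
    have e4 : X / w₁ = X ^ γ₁ := by
      rw [div_eq_iff hw₁0.ne']
      linarith
    rw [e3, Real.rpow_add hX0, e4, hCr]
    ring

/-- Two windows, no carry in base `p`. -/
theorem two_exp {p q r : ℕ} (hp : p.Prime) (hq : q.Prime) (hr : r.Prime) (hp2 : p ≠ 2)
    (hq2 : q ≠ 2) (hr2 : r ≠ 2) (hpq : p ≠ q) {β γ : ℝ}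
    (hβ : 0 < β) (hγ : 0 < γ) (hsum : 1 < β + γ) (N : ℕ) :
    ∃ n : ℕ, N ≤ n ∧ (Nat.centralBinom n).factorization p = 0 ∧
      (q : ℝ) ^ ((Nat.centralBinom n).factorization q) ≤ (n : ℝ) ^ β ∧
      (r : ℝ) ^ ((Nat.centralBinom n).factorization r) ≤ (n : ℝ) ^ γ := by
  obtain ⟨hpo, hp3⟩ := prime_odd3 hp hp2
  obtain ⟨hqo, hq3⟩ := prime_odd3 hq hq2
  obtain ⟨hro, hr3⟩ := prime_odd3 hr hr2
  have hcqp : Nat.Coprime q p := (Nat.coprime_primes hq hp).2 hpq.symm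
  have hp1R : (1 : ℝ) < p := by exact_mod_cast hp.one_lt
  set s := β + γ with hs
  have hs0 : 0 < s := by linarith
  set β₁ := β / s with hβ₁
  set γ₁ := γ / s with hγ₁
  have hβ₁0 : 0 < β₁ := by positivity
  have hγ₁0 : 0 < γ₁ := by positivity
  have hβlt : β₁ < β := div_lt_self hβ hsum
  have hγlt : γ₁ < γ := div_lt_self hγ hsum
  have hone : β₁ + γ₁ = 1 := by
    rw [hβ₁, hγ₁, ← add_div, ← hs]
    exact div_self hs0.ne'
  obtain ⟨K', hK'⟩ := exists_nat_one_div_lt (show 0 < β - β₁ by linarith)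
  set K : ℕ := K' + 1 with hK
  have hKβ : (1 : ℝ) / K < β - β₁ := by
    rw [hK]
    push_cast
    exact hK'
  have hK1 : 1 ≤ K := by omega
  set e₂ := β - (β₁ + 1 / K) with he₂
  set e₃ := γ - γ₁ with he₃
  have he₂0 : 0 < e₂ := by linarith
  have he₃0 : 0 < e₃ := by linarith
  set Cq : ℝ := q * (6 * q ^ 2) * (q * 2) * q with hCq
  set Cr : ℝ := r * (6 * (32 * q ^ K * p * r)) with hCr
  obtain ⟨I, hI⟩ := ((tendsto_pow_atTop_atTop_of_one_lt hp1R).eventually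
    ((((((ev hγ₁0 ((q : ℝ) ^ 2)).and (ev hβ₁0 (32 * (q : ℝ) ^ K))).and
    (ev he₂0 (Cq * 2 ^ β))).and (ev he₃0 (Cr * 2 ^ γ))).and
    (eventually_ge_atTop (2 : ℝ))).and (eventually_ge_atTop ((N : ℝ) + 1)))).exists
  set X : ℝ := (p : ℝ) ^ I with hX
  obtain ⟨⟨⟨⟨⟨c1, c2⟩, c3⟩, c4⟩, c5⟩, c6⟩ := hI
  have hX0 : 0 < X := by linarith
  have hX1 : 1 ≤ X := by linarith
  set w := X ^ β₁ with hw
  have hw1 : 1 ≤ w := Real.one_le_rpow hX1 hβ₁0.le
  have hw0 : 0 < w := by linarith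
  have e1 : w * X ^ γ₁ = X := by
    rw [hw, ← Real.rpow_add hX0, hone, Real.rpow_one]
  obtain ⟨x, hx1, hx2, b1, b2, b3⟩ := two_core hpo hqo hro hp3 hq3 hr3 hcqp hK1
    (w := w) (I := I) c2
    (by
      have := mul_le_mul_of_nonneg_left c1 hw0.le
      rw [e1] at this
      linarith)
  set n := ⌊x⌋₊ with hn
  have hx0 : 0 ≤ x := by linarith
  have hnx : x < (n : ℝ) + 1 := Nat.lt_floor_add_one x
  have hnX : X / 2 ≤ (n : ℝ) := by linarith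
  refine ⟨n, ?_, ?_, ?_, ?_⟩
  · have : (N : ℝ) < (n : ℝ) + 1 := by linarith
    have h' : N < n + 1 := by exact_mod_cast this
    omega
  · rw [fact_eq_bad hp]
    exact b1 _
  · rw [fact_eq_bad hq]
    refine (b2 _).trans (le_trans (le_of_eq ?_) (fin_le hX0 hβ.le hnX c3))
    have e3 : β - e₂ = β₁ + 1 / K := by rw [he₂]; ring
    rw [e3, Real.rpow_add hX0, hCq]
    ring
  · rw [fact_eq_bad hr]
    refine (b3 _).trans (le_trans (le_of_eq ?_) (fin_le hX0 hγ.le hnX c4))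
    have e3 : γ - e₃ = γ₁ := by rw [he₃]; ring
    have e4 : X / w = X ^ γ₁ := by
      rw [div_eq_iff hw0.ne']
      linarith
    rw [e3, ← hX, e4, hCr]
    ring

/-- The exchange theorem. -/
theorem exchange {p q r : ℕ} (hp : p.Prime) (hq : q.Prime) (hr : r.Prime) (hp2 : p ≠ 2)
    (hq2 : q ≠ 2) (hr2 : r ≠ 2) (hpq : p ≠ q) (hqr : q ≠ r) {α β γ : ℝ} (hα : 0 ≤ α)
    (hβ : 0 < β) (hγ : 0 < γ) (hsum : 1 < α + β + γ) (N : ℕ) :
    ∃ n : ℕ, N ≤ n ∧ (p : ℝ) ^ ((Nat.centralBinom n).factorization p) ≤ (n : ℝ) ^ α ∧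
      (q : ℝ) ^ ((Nat.centralBinom n).factorization q) ≤ (n : ℝ) ^ β ∧
      (r : ℝ) ^ ((Nat.centralBinom n).factorization r) ≤ (n : ℝ) ^ γ := by
  rcases lt_or_ge 1 (β + γ) with h | h
  · obtain ⟨n, hn, h1, h2, h3⟩ := two_exp hp hq hr hp2 hq2 hr2 hpq hβ hγ h (max N 1)
    refine ⟨n, (le_max_left _ _).trans hn, ?_, h2, h3⟩
    rw [h1, pow_zero]
    have : (1 : ℝ) ≤ (n : ℝ) := by exact_mod_cast (le_max_right N 1).trans hn
    exact Real.one_le_rpow this hα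
  · have hα' : 0 < α := by linarith
    exact three_exp hp hq hr hp2 hq2 hr2 hpq hqr hα' hβ hγ hsum N

end Pool.Agent.Helper97.TB
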