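import Pool.Agent.Helper97.TB.Count

open Finset

namespace Pool.Agent.Helper97.TB

/-- the levels at which the base `p` is not separated from the base `q` -/
def Keep (p q : ℕ) (δ : ℝ) (i : ℕ) : Prop := ∀ j, 4 * δ ≤ |(p : ℝ) ^ i - (q : ℝ) ^ j|

lemma keep_zero (p q : ℕ) (i : ℕ) : Keep p q 0 i := fun _ => by
  rw [mul_zero]
  exact abs_nonneg _

lemma keep_gap {p q K : ℕ} (hp1 : 3 ≤ p) (hq1 : 3 ≤ q) (hcop : Nat.Coprime p q) {δ w : ℝ}
    (hδ0 : 0 ≤ δ) (hδ : 4 * δ ≤ w / (16 * p ^ K)) {i j : ℕ} (hw : w ≤ (p : ℝ) ^ i)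
    (hi : ¬ Keep p q δ i) (hj : ¬ Keep p q δ j) (hij : i < j) : i + K < j := by
  by_contra hcon
  push Not at hcon
  unfold Keep at hi hj
  push Not at hi hj
  obtain ⟨a, ha⟩ := hi
  obtain ⟨b, hb⟩ := hj
  exact resonance hp1 hq1 hcop hδ0 hδ hij hcon hw ha hb

lemma keep_or {p q K : ℕ} (hp1 : 3 ≤ p) (hq1 : 3 ≤ q) (hcop : Nat.Coprime p q) (hK : 1 ≤ K)
    {δ w : ℝ} (hδ0 : 0 ≤ δ) (hδ : 4 * δ ≤ w / (16 * p ^ K)) (i : ℕ) (hw : w ≤ (p : ℝ) ^ i) :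
    Keep p q δ i ∨ Keep p q δ (i + 1) := by
  by_contra hcon
  push Not at hcon
  have := keep_gap hp1 hq1 hcop hδ0 hδ hw hcon.1 hcon.2 (Nat.lt_succ_self i)
  omega

open Classical in
/-- deleted levels -/
noncomputable def nk (p q N : ℕ) (δ w B : ℝ) : Finset ℕ :=
  (range N).filter (fun i => w ≤ (p : ℝ) ^ i ∧ (p : ℝ) ^ i ≤ B ∧ ¬ Keep p q δ i)

lemma mem_nk {p q N : ℕ} {δ w B : ℝ} {i : ℕ} :
    i ∈ nk p q N δ w B ↔ i < N ∧ w ≤ (p : ℝ) ^ i ∧ (p : ℝ) ^ i ≤ B ∧ ¬ Keep p q δ i := by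
  unfold nk
  simp

lemma nk_bound {p q K N : ℕ} (hp1 : 3 ≤ p) (hq1 : 3 ≤ q) (hcop : Nat.Coprime p q) (hK : 1 ≤ K)
    {δ w B : ℝ} (hδ0 : 0 ≤ δ) (hδ : 4 * δ ≤ w / (16 * p ^ K)) (hB : 1 ≤ B) :
    (p : ℝ) ^ (nk p q N δ w B).card ≤ p * B ^ ((1 : ℝ) / K) := by
  apply nk_card (by omega) hK hB
  · intro i hi j hj hij
    exact keep_gap hp1 hq1 hcop hδ0 hδ (mem_nk.1 hi).2.1 (mem_nk.1 hi).2.2.2 (mem_nk.1 hj).2.2.2 hij
  · intro i hi
    exact (mem_nk.1 hi).2.2.1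

/-- bad levels of `n` in base `p` -/
def bad (p b n : ℕ) : Finset ℕ := (Finset.Ico 1 b).filter (fun i => p ^ i ≤ 2 * (n % p ^ i))

lemma pow_bad_le {p b n : ℕ} (hp : 2 ≤ p) {S₁ S₂ S₃ : Finset ℕ} (h : bad p b n ⊆ S₁ ∪ S₂ ∪ S₃)
    {A₁ A₂ A₃ : ℝ} (h₁ : (p : ℝ) ^ S₁.card ≤ A₁) (h₂ : (p : ℝ) ^ S₂.card ≤ A₂)
    (h₃ : (p : ℝ) ^ S₃.card ≤ A₃) : (p : ℝ) ^ (bad p b n).card ≤ A₁ * A₂ * A₃ := by
  have hpR : (1 : ℝ) ≤ p := by exact_mod_cast (show 1 ≤ p by omega)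
  have hc : (bad p b n).card ≤ S₁.card + S₂.card + S₃.card := by
    refine (Finset.card_le_card h).trans ?_
    have h1 := Finset.card_union_le (S₁ ∪ S₂) S₃
    have h2 := Finset.card_union_le S₁ S₂
    omega
  calc (p : ℝ) ^ (bad p b n).card ≤ (p : ℝ) ^ (S₁.card + S₂.card + S₃.card) :=
        pow_le_pow_right₀ hpR hc
    _ = (p : ℝ) ^ S₁.card * (p : ℝ) ^ S₂.card * (p : ℝ) ^ S₃.card := by rw [pow_add, pow_add]
    _ ≤ A₁ * A₂ * A₃ := by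
        have e1 : (0 : ℝ) ≤ (p : ℝ) ^ S₁.card := by positivity
        have e2 : (0 : ℝ) ≤ (p : ℝ) ^ S₂.card := by positivity
        have e3 : (0 : ℝ) ≤ (p : ℝ) ^ S₃.card := by positivity
        have a1 : 0 ≤ A₁ := e1.trans h₁
        have a2 : 0 ≤ A₂ := e2.trans h₂
        exact mul_le_mul (mul_le_mul h₁ h₂ e2 a1) h₃ e3 (mul_nonneg a1 a2)

/-- a bad level is not good, and its scale is at most `2n` -/
lemma bad_spec {p b : ℕ} (hp : Odd p) {x X : ℝ} (hx : 0 ≤ x) (hxX : x ≤ 3 * X) {i : ℕ}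
    (hi : i ∈ bad p b ⌊x⌋₊) : i < b ∧ (p : ℝ) ^ i ≤ 6 * X ∧ ¬ Good ((p : ℝ) ^ i) 0 x := by
  unfold bad at hi
  rw [Finset.mem_filter, Finset.mem_Ico] at hi
  refine ⟨hi.1.2, ?_, ?_⟩
  · have h1 : ⌊x⌋₊ % p ^ i ≤ ⌊x⌋₊ := Nat.mod_le _ _
    have h2 : p ^ i ≤ 2 * ⌊x⌋₊ := hi.2.trans (by omega)
    have h3 : ((p ^ i : ℕ) : ℝ) ≤ ((2 * ⌊x⌋₊ : ℕ) : ℝ) := by exact_mod_cast h2
    push_cast at h3
    have h4 : (⌊x⌋₊ : ℝ) ≤ x := Nat.floor_le hx
    linarith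
  · intro hg
    have := not_carry hp hx hg
    omega

/-- Three windows. -/
theorem three_core {p q r : ℕ} (hp : Odd p) (hq : Odd q) (hr : Odd r) (hp1 : 3 ≤ p) (hq1 : 3 ≤ q)
    (hr1 : 3 ≤ r) (hpq : Nat.Coprime p q) (hrq : Nat.Coprime r q) {K : ℕ}
    (hK : 1 ≤ K) {w₁ w₂ X : ℝ} (hw₁ : 1 ≤ w₁) (hw₂ : 1 ≤ w₂)
    (h1 : w₁ * q * p ^ 2 ≤ X) (h2 : w₂ * q * r ^ 2 ≤ w₁ / (128 * p ^ K))
    (h3 : 1 * r * p ^ 2 ≤ w₂ / (128 * r ^ K)) :
    ∃ x : ℝ, X ≤ x ∧ x ≤ 3 * X ∧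
      (∀ b, (p : ℝ) ^ (bad p b ⌊x⌋₊).card ≤
        (p * (6 * q * p ^ 2)) * (p * (128 * r ^ K * r * p ^ 2 * (w₁ / w₂)))
          * (p * X ^ ((1 : ℝ) / K))) ∧
      (∀ b, (q : ℝ) ^ (bad q b ⌊x⌋₊).card ≤
        (q * (6 * q * p ^ 2)) * (q * (128 * p ^ K * q * r ^ 2)) * (q * (2 * w₂))) ∧
      (∀ b, (r : ℝ) ^ (bad r b ⌊x⌋₊).card ≤
        (r * (6 * (128 * p ^ K) * q * r ^ 2 * (X / w₁))) * (r * (128 * r ^ K * r * p ^ 2))
          * (r * X ^ ((1 : ℝ) / K))) := by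
  have hpR : (3 : ℝ) ≤ p := by exact_mod_cast hp1
  have hqR : (3 : ℝ) ≤ q := by exact_mod_cast hq1
  have hrR : (3 : ℝ) ≤ r := by exact_mod_cast hr1
  have hp0 : (0 : ℝ) < p := by linarith
  have hq0 : (0 : ℝ) < q := by linarith
  have hr0 : (0 : ℝ) < r := by linarith
  have hpK : (1 : ℝ) ≤ (p : ℝ) ^ K := one_le_pow₀ (by linarith)
  have hrK : (1 : ℝ) ≤ (r : ℝ) ^ K := one_le_pow₀ (by linarith)
  set δ₁ : ℝ := w₁ / (64 * p ^ K) with hδ₁
  set δ₂ : ℝ := w₂ / (64 * r ^ K) with hδ₂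
  have hδ₁0 : 0 ≤ δ₁ := by positivity
  have hδ₂0 : 0 ≤ δ₂ := by positivity
  have hd1 : 4 * δ₁ ≤ w₁ / (16 * p ^ K) := by
    rw [hδ₁]
    apply le_of_eq
    field_simp
    ring
  have hd2 : 4 * δ₂ ≤ w₂ / (16 * r ^ K) := by
    rw [hδ₂]
    apply le_of_eq
    field_simp
    ring
  have hd1w : 4 * δ₁ ≤ w₁ := hd1.trans (div_le_self (by linarith) (by linarith))
  have hd2w : 4 * δ₂ ≤ w₂ := hd2.trans (div_le_self (by linarith) (by linarith))
  -- window 1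
  obtain ⟨i₀, ki, wi, qi, Ti, mi⟩ := start (p := p) (by omega) hq0 hw₁ h1
    (keep := Keep p q δ₁) (fun i hi => keep_or hp1 hq1 hpq hK hδ₁0 hd1 i hi)
  obtain ⟨x₁, a1, a2, a3, a4⟩ := window hp hq (by omega) (by omega) hδ₁0 hd1w
    (keep := Keep p q δ₁) (fun i hi _ j => hi j) ki wi qi X
  -- window 2
  have hT2 : w₂ * q * r ^ 2 ≤ δ₁ / 2 := by
    refine h2.trans (le_of_eq ?_)
    rw [hδ₁]
    field_simp
    ring
  obtain ⟨k₀, kk, wk, qk, Tk, mk⟩ := start (p := r) (by omega) hq0 hw₂ hT2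
    (keep := Keep r q δ₂) (fun i hi => keep_or hr1 hq1 hrq hK hδ₂0 hd2 i hi)
  obtain ⟨x₂, b1, b2, b3, b4⟩ := window hr hq (by omega) (by omega) hδ₂0 hd2w
    (keep := Keep r q δ₂) (fun i hi _ j => hi j) kk wk qk x₁
  -- window 3
  have hT3 : 1 * r * p ^ 2 ≤ δ₂ / 2 := by
    refine h3.trans (le_of_eq ?_)
    rw [hδ₂]
    field_simp
    ring
  obtain ⟨i₃, _, _, ri, Tr, mr⟩ := start (p := p) (by omega) hr0 le_rfl hT3
    (keep := Keep p r 0) (fun i _ => Or.inl (keep_zero p r i))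
  obtain ⟨x, c1, c2, c3, c4⟩ := window hp hr (by omega) (by omega) le_rfl
    (by norm_num : 4 * (0 : ℝ) ≤ 1) (keep := Keep p r 0) (fun i hi _ j => hi j)
    (keep_zero p r i₃) (one_le_pow₀ (by linarith)) ri x₂
  have hx12 : x₂ ≤ x₁ + δ₁ - δ₂ := by linarith
  have hx3 : x ≤ x₂ + δ₂ := by linarith
  have hxx1 : x₁ ≤ x := by linarith
  have hxx1' : x ≤ x₁ + δ₁ := by linarith
  have hXx : X ≤ x := by linarith
  have hX1 : 1 ≤ X := by
    have e : (1 : ℝ) ≤ w₁ * q * p ^ 2 := by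
      have e1 : (1 : ℝ) ≤ p ^ 2 := one_le_pow₀ (by linarith)
      have e2 : (1 : ℝ) ≤ w₁ * q := by nlinarith
      nlinarith
    linarith
  have hx3X : x ≤ 3 * X := by linarith
  have hx0 : 0 ≤ x := by linarith
  -- goodness at x
  have G1 : ∀ i ≤ i₀, Keep p q δ₁ i → w₁ ≤ (p : ℝ) ^ i → Good ((p : ℝ) ^ i) 0 x :=
    fun i hi hk hw => (a3 i hi hk hw).shift hxx1 hxx1'
  have G1' : ∀ j, (q : ℝ) ^ j ≤ p ^ i₀ → w₁ ≤ (q : ℝ) ^ j → Good ((q : ℝ) ^ j) 0 x :=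
    fun j hj hw => (a4 j hj hw).shift hxx1 hxx1'
  have G2 : ∀ i ≤ k₀, Keep r q δ₂ i → w₂ ≤ (r : ℝ) ^ i → Good ((r : ℝ) ^ i) 0 x :=
    fun i hi hk hw => (b3 i hi hk hw).shift c1 hx3
  have G2' : ∀ j, (q : ℝ) ^ j ≤ r ^ k₀ → w₂ ≤ (q : ℝ) ^ j → Good ((q : ℝ) ^ j) 0 x :=
    fun j hj hw => (b4 j hj hw).shift c1 hx3
  have G3 : ∀ i ≤ i₃, Good ((p : ℝ) ^ i) 0 x :=
    fun i hi => c3 i hi (keep_zero p r i) (one_le_pow₀ (by linarith))
  have G3' : ∀ j, (r : ℝ) ^ j ≤ p ^ i₃ → Good ((r : ℝ) ^ j) 0 x :=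
    fun j hj => c4 j hj (one_le_pow₀ (by linarith))
  -- sizes
  have hp2 : (1 : ℝ) ≤ p ^ 2 := one_le_pow₀ (by linarith)
  have hr2 : (1 : ℝ) ≤ r ^ 2 := one_le_pow₀ (by linarith)
  have hpi0 : (0 : ℝ) < (p : ℝ) ^ i₀ := by positivity
  have hrk0 : (0 : ℝ) < (r : ℝ) ^ k₀ := by positivity
  have hpi3 : (0 : ℝ) < (p : ℝ) ^ i₃ := by positivity
  have hpi0X : (p : ℝ) ^ i₀ ≤ X := by nlinarith
  have hw12 : w₂ ≤ w₁ := by
    have e1 : w₂ ≤ w₂ * q * r ^ 2 := by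
      have : w₂ * 1 ≤ w₂ * (q * r ^ 2) := mul_le_mul_of_nonneg_left (by nlinarith) (by linarith)
      nlinarith
    have e2 : w₁ / (128 * p ^ K) ≤ w₁ := div_le_self (by linarith) (by linarith)
    linarith
  have hδ1w : δ₁ / 2 ≤ w₁ := by linarith
  have hδ2w : δ₂ / 2 ≤ w₂ := by linarith
  have hrk0w : (r : ℝ) ^ k₀ ≤ w₁ := by nlinarith
  have hpi3w : (p : ℝ) ^ i₃ ≤ w₂ := by nlinarith
  have hw1X : w₁ ≤ X := by
    have : w₁ * 1 ≤ w₁ * (q * p ^ 2) := mul_le_mul_of_nonneg_left (by nlinarith) (by linarith)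
    nlinarith
  -- lower bounds of the start scales
  have l1 : X / (p : ℝ) ^ i₀ ≤ q * p ^ 2 := by
    rw [div_le_iff₀ hpi0]
    exact Ti.le
  have l2 : w₁ / (r : ℝ) ^ k₀ ≤ 128 * p ^ K * q * r ^ 2 := by
    rw [div_le_iff₀ hrk0]
    have : δ₁ / 2 = w₁ / (128 * p ^ K) := by
      rw [hδ₁]; field_simp; ring
    rw [this, div_lt_iff₀ (by positivity)] at Tk
    nlinarith
  have l3 : w₂ / (p : ℝ) ^ i₃ ≤ 128 * r ^ K * r * p ^ 2 := by
    rw [div_le_iff₀ hpi3]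
    have : δ₂ / 2 = w₂ / (128 * r ^ K) := by
      rw [hδ₂]; field_simp; ring
    rw [this, div_lt_iff₀ (by positivity)] at Tr
    nlinarith
  refine ⟨x, hXx, hx3X, ?_, ?_, ?_⟩
  · intro b
    have hsub : bad p b ⌊x⌋₊ ⊆ lv p b ((p : ℝ) ^ i₀) (6 * X) ∪ lv p b ((p : ℝ) ^ i₃) w₁
        ∪ nk p q b δ₁ w₁ X := by
      intro i hi
      obtain ⟨hib, hiX, hng⟩ := bad_spec hp hx0 hx3X hi
      simp only [Finset.mem_union, mem_lv, mem_nk]
      by_cases hii : i ≤ i₀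
      · by_cases hw : w₁ ≤ (p : ℝ) ^ i
        · right
          refine ⟨hib, hw, ?_, fun hk => hng (G1 i hii hk hw)⟩
          exact (pow_le_pow_right₀ (by linarith) hii).trans hpi0X
        · left; right
          push Not at hw
          refine ⟨hib, ?_, hw.le⟩
          by_contra hcon
          push Not at hcon
          have : i ≤ i₃ := by
            by_contra h'
            push Not at h'
            have : (p : ℝ) ^ i₃ < (p : ℝ) ^ i := pow_lt_pow_right₀ (by linarith) h'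
            linarith
          exact hng (G3 i this)
      · left; left
        push Not at hii
        exact ⟨hib, pow_lt_pow_right₀ (by linarith) hii, hiX⟩
    apply pow_bad_le (by omega) hsub
    · refine (lv_card (by omega) hpi0 (by linarith)).trans ?_
      apply mul_le_mul_of_nonneg_left _ hp0.le
      have : 6 * X / (p : ℝ) ^ i₀ = 6 * (X / (p : ℝ) ^ i₀) := by ring
      rw [this]
      linarith
    · refine (lv_card (by omega) hpi3 (hpi3w.trans hw12)).trans ?_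
      apply mul_le_mul_of_nonneg_left _ hp0.le
      have : w₁ / (p : ℝ) ^ i₃ = (w₂ / (p : ℝ) ^ i₃) * (w₁ / w₂) := by
        field_simp
      rw [this]
      exact mul_le_mul_of_nonneg_right l3 (by positivity)
    · exact nk_bound hp1 hq1 hpq hK hδ₁0 hd1 hX1
  · intro b
    have hsub : bad q b ⌊x⌋₊ ⊆ lv q b ((p : ℝ) ^ i₀) (6 * X) ∪ lv q b ((r : ℝ) ^ k₀) w₁
        ∪ lv q b (1 / 2) w₂ := by
      intro j hj
      obtain ⟨hjb, hjX, hng⟩ := bad_spec hq hx0 hx3X hj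
      simp only [Finset.mem_union, mem_lv]
      by_cases h : (q : ℝ) ^ j ≤ (p : ℝ) ^ i₀
      · by_cases hw : w₁ ≤ (q : ℝ) ^ j
        · exact absurd (G1' j h hw) hng
        · push Not at hw
          by_cases hw2 : w₂ ≤ (q : ℝ) ^ j
          · left; right
            refine ⟨hjb, ?_, hw.le⟩
            by_contra hcon
            push Not at hcon
            exact hng (G2' j hcon hw2)
          · right
            push Not at hw2
            refine ⟨hjb, ?_, hw2.le⟩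
            have : (1 : ℝ) ≤ (q : ℝ) ^ j := one_le_pow₀ (by linarith)
            linarith
      · left; left
        push Not at h
        exact ⟨hjb, h, hjX⟩
    apply pow_bad_le (by omega) hsub
    · refine (lv_card (by omega) hpi0 (by linarith)).trans ?_
      apply mul_le_mul_of_nonneg_left _ hq0.le
      have : 6 * X / (p : ℝ) ^ i₀ = 6 * (X / (p : ℝ) ^ i₀) := by ring
      rw [this]
      linarith
    · refine (lv_card (by omega) hrk0 hrk0w).trans ?_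
      exact mul_le_mul_of_nonneg_left l2 hq0.le
    · refine (lv_card (by omega) (by norm_num) (by linarith)).trans ?_
      apply mul_le_mul_of_nonneg_left _ hq0.le
      apply le_of_eq
      ring
  · intro b
    have hsub : bad r b ⌊x⌋₊ ⊆ lv r b ((r : ℝ) ^ k₀) (6 * X) ∪ lv r b ((p : ℝ) ^ i₃) w₂
        ∪ nk r q b δ₂ w₂ X := by
      intro i hi
      obtain ⟨hib, hiX, hng⟩ := bad_spec hr hx0 hx3X hi
      simp only [Finset.mem_union, mem_lv, mem_nk]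
      by_cases hii : i ≤ k₀
      · by_cases hw : w₂ ≤ (r : ℝ) ^ i
        · right
          refine ⟨hib, hw, ?_, fun hk => hng (G2 i hii hk hw)⟩
          exact ((pow_le_pow_right₀ (by linarith) hii).trans hrk0w).trans hw1X
        · left; right
          push Not at hw
          refine ⟨hib, ?_, hw.le⟩
          by_contra hcon
          push Not at hcon
          exact hng (G3' i hcon)
      · left; left
        push Not at hii
        exact ⟨hib, pow_lt_pow_right₀ (by linarith) hii, hiX⟩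
    apply pow_bad_le (by omega) hsub
    · refine (lv_card (by omega) hrk0 (by linarith)).trans ?_
      apply mul_le_mul_of_nonneg_left _ hr0.le
      have : 6 * X / (r : ℝ) ^ k₀ = 6 * (w₁ / (r : ℝ) ^ k₀) * (X / w₁) := by
        field_simp
      rw [this]
      apply mul_le_mul_of_nonneg_right _ (by positivity)
      linarith
    · refine (lv_card (by omega) hpi3 hpi3w).trans ?_
      exact mul_le_mul_of_nonneg_left l3 hr0.le
    · exact nk_bound hr1 hq1 hrq hK hδ₂0 hd2 hX1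

end Pool.Agent.Helper97.TB
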