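import Pool.Agent.Helper97.TB.Three
import Pool.Agent.Helper46.TB.Exact

open Finset

namespace Pool.Agent.Helper97.TB

/-- Two windows, no loss in base `p`. -/
theorem two_core {p q r : ℕ} (hp : Odd p) (hq : Odd q) (hr : Odd r) (hp1 : 3 ≤ p) (hq1 : 3 ≤ q)
    (hr1 : 3 ≤ r) (hqp : Nat.Coprime q p) {K : ℕ} (hK : 1 ≤ K) {w : ℝ} {I : ℕ}
    (h1 : 32 * (q : ℝ) ^ K ≤ w) (h2 : w * 1 * q ^ 2 ≤ (p : ℝ) ^ I) :
    ∃ x : ℝ, (p : ℝ) ^ I ≤ x ∧ x ≤ 3 * (p : ℝ) ^ I ∧
      (∀ b, (bad p b ⌊x⌋₊).card = 0) ∧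
      (∀ b, (q : ℝ) ^ (bad q b ⌊x⌋₊).card ≤
        (q * (6 * q ^ 2)) * (q * (2 * w)) * (q * ((p : ℝ) ^ I) ^ ((1 : ℝ) / K))) ∧
      (∀ b, (r : ℝ) ^ (bad r b ⌊x⌋₊).card ≤
        (r * (6 * (32 * q ^ K * p * r) * ((p : ℝ) ^ I / w)))) := by
  have hpR : (3 : ℝ) ≤ p := by exact_mod_cast hp1
  have hqR : (3 : ℝ) ≤ q := by exact_mod_cast hq1
  have hrR : (3 : ℝ) ≤ r := by exact_mod_cast hr1
  have hp0 : (0 : ℝ) < p := by linarith
  have hq0 : (0 : ℝ) < q := by linarith
  have hr0 : (0 : ℝ) < r := by linarith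
  have hqK : (1 : ℝ) ≤ (q : ℝ) ^ K := one_le_pow₀ (by linarith)
  have hw32 : 32 ≤ w := by linarith
  have hw1 : 1 ≤ w := by linarith
  set X : ℝ := (p : ℝ) ^ I with hX
  have hX0 : 0 < X := by positivity
  have hX1 : 1 ≤ X := one_le_pow₀ (by linarith)
  set δ : ℝ := w / (64 * q ^ K) with hδ
  have hδ0 : 0 ≤ δ := by positivity
  have hd1 : 4 * δ ≤ w / (16 * q ^ K) := by
    rw [hδ]
    apply le_of_eq
    field_simp
    ring
  have hd1w : 4 * δ ≤ w := hd1.trans (div_le_self (by linarith) (by linarith))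
  obtain ⟨j₀, kj, wj, qj, Tj, mj⟩ := start (p := q) (by omega) (q := 1) one_pos hw1 h2
    (keep := Keep q p δ) (fun i hi => keep_or hq1 hp1 hqp hK hδ0 hd1 i hi)
  have h2δ : 2 * δ = w / (32 * q ^ K) := by
    rw [hδ]
    field_simp
    ring
  have h2δ1 : 1 ≤ 2 * δ := by
    rw [h2δ, le_div_iff₀ (by positivity)]
    linarith
  obtain ⟨iend, he1, he2⟩ := exists_nat_pow_near h2δ1 (show (1 : ℝ) < p by linarith)
  obtain ⟨m', hm'⟩ := window_exact hp hq (by omega) (by omega) hδ0 hd1w (keep := Keep q p δ)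
    (fun j hj _ i => by rw [abs_sub_comm]; exact hj i) kj wj (by rw [one_mul] at qj; exact qj) he1 1
  have hpe1 : (1 : ℝ) ≤ (p : ℝ) ^ iend := one_le_pow₀ (by linarith)
  obtain ⟨k₀, hk1, hk2⟩ := exists_nat_pow_near hpe1 (show (1 : ℝ) < r by linarith)
  obtain ⟨x, hxU, hxp, hxr⟩ := last_exact hp hr (by omega) (by omega) hk1 m'
  obtain ⟨hx1, hx2, hx3⟩ := hm' x hxU.1 hxU.2
  have hxX : X ≤ x := by
    have := hx1.1
    push_cast at this
    linarith
  have hx32 : x ≤ X + X / 2 := by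
    have := hx1.2
    push_cast at this
    linarith
  have hx3X : x ≤ 3 * X := by linarith
  have hx0 : 0 ≤ x := by linarith
  have hqj0 : (0 : ℝ) < (q : ℝ) ^ j₀ := by positivity
  have hrk0 : (0 : ℝ) < (r : ℝ) ^ k₀ := by positivity
  refine ⟨x, hxX, hx3X, ?_, ?_, ?_⟩
  · intro b
    rw [Finset.card_eq_zero, Finset.eq_empty_iff_forall_notMem]
    intro i hi
    obtain ⟨_, _, hng⟩ := bad_spec hp hx0 hx3X hi
    by_cases hiI : i ≤ I
    · apply hng
      rcases le_total i iend with h | h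
      · exact hxp i h
      · exact hx2 i h hiI
    · push Not at hiI
      unfold bad at hi
      rw [Finset.mem_filter] at hi
      have hmod : ⌊x⌋₊ % p ^ i ≤ ⌊x⌋₊ := Nat.mod_le _ _
      have h3 : p ^ i ≤ 2 * ⌊x⌋₊ := hi.2.trans (by omega)
      have h4 : ((2 * ⌊x⌋₊ : ℕ) : ℝ) ≤ ((p ^ (I + 1) : ℕ) : ℝ) := by
        push_cast
        have h5 : (⌊x⌋₊ : ℝ) ≤ x := Nat.floor_le hx0
        have h6 : (p : ℝ) ^ (I + 1) = X * p := pow_succ _ _
        rw [h6]
        nlinarith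
      have h7 : 2 * ⌊x⌋₊ ≤ p ^ (I + 1) := by exact_mod_cast h4
      have h8 : p ^ (I + 1) ≤ p ^ i := Nat.pow_le_pow_right (by omega) hiI
      have h9 : p ^ i = 2 * ⌊x⌋₊ := by omega
      have hodd : Odd (p ^ i) := hp.pow
      rw [h9] at hodd
      exact (Nat.not_odd_iff_even.2 (even_two_mul _)) hodd
  · intro b
    have hsub : bad q b ⌊x⌋₊ ⊆ lv q b ((q : ℝ) ^ j₀) (6 * X) ∪ lv q b (1 / 2) w
        ∪ nk q p b δ w X := by
      intro j hj
      obtain ⟨hjb, hjX, hng⟩ := bad_spec hq hx0 hx3X hj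
      simp only [Finset.mem_union, mem_lv, mem_nk]
      by_cases hjj : j ≤ j₀
      · by_cases hw : w ≤ (q : ℝ) ^ j
        · right
          refine ⟨hjb, hw, ?_, fun hk => hng (hx3 j hjj hk hw)⟩
          rw [one_mul] at qj
          exact (pow_le_pow_right₀ (by linarith) hjj).trans qj
        · left; right
          push Not at hw
          refine ⟨hjb, ?_, hw.le⟩
          have : (1 : ℝ) ≤ (q : ℝ) ^ j := one_le_pow₀ (by linarith)
          linarith
      · left; left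
        push Not at hjj
        exact ⟨hjb, pow_lt_pow_right₀ (by linarith) hjj, hjX⟩
    apply pow_bad_le (by omega) hsub
    · refine (lv_card (by omega) hqj0 (by linarith)).trans ?_
      apply mul_le_mul_of_nonneg_left _ hq0.le
      have e : 6 * X / (q : ℝ) ^ j₀ = 6 * (X / (q : ℝ) ^ j₀) := by ring
      rw [e]
      have : X / (q : ℝ) ^ j₀ ≤ q ^ 2 := by
        rw [div_le_iff₀ hqj0]
        linarith
      linarith
    · refine (lv_card (by omega) (by norm_num) (by linarith)).trans ?_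
      apply mul_le_mul_of_nonneg_left _ hq0.le
      apply le_of_eq
      ring
    · exact nk_bound hq1 hp1 hqp hK hδ0 hd1 hX1
  · intro b
    have hsub : bad r b ⌊x⌋₊ ⊆ lv r b ((r : ℝ) ^ k₀) (6 * X) ∪ ∅ ∪ ∅ := by
      intro i hi
      obtain ⟨hib, hiX, hng⟩ := bad_spec hr hx0 hx3X hi
      simp only [Finset.mem_union, mem_lv, Finset.notMem_empty, or_false]
      by_cases hii : i ≤ k₀
      · exact absurd (hxr i hii) hng
      · push Not at hii
        exact ⟨hib, pow_lt_pow_right₀ (by linarith) hii, hiX⟩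
    have hkX : (r : ℝ) ^ k₀ ≤ X := by
      have e1 : 2 * δ ≤ w := by linarith
      have e2 : w ≤ X := by
        have : w * 1 ≤ w * (1 * q ^ 2) :=
          mul_le_mul_of_nonneg_left (by nlinarith) (by linarith)
        nlinarith
      linarith
    have hmain : X / (r : ℝ) ^ k₀ ≤ 32 * q ^ K * p * r * (X / w) := by
      have e1 : (p : ℝ) ^ iend < r * (r : ℝ) ^ k₀ := by rw [pow_succ] at hk2; linarith
      have e2 : 2 * δ < p * (p : ℝ) ^ iend := by rw [pow_succ] at he2; linarith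
      have e3 : 2 * δ < p * (r * (r : ℝ) ^ k₀) :=
        e2.trans (mul_lt_mul_of_pos_left e1 hp0)
      rw [h2δ, div_lt_iff₀ (by positivity)] at e3
      rw [div_le_iff₀ hrk0]
      have e4 : 32 * (q : ℝ) ^ K * p * r * (X / w) * (r : ℝ) ^ k₀
          = X * ((p * (r * (r : ℝ) ^ k₀)) * (32 * q ^ K) / w) := by
        field_simp
      rw [e4]
      have e5 : 1 ≤ (p * (r * (r : ℝ) ^ k₀)) * (32 * q ^ K) / w := by
        rw [le_div_iff₀ (by linarith)]
        linarith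
      nlinarith
    have hb := pow_bad_le (p := r) (b := b) (n := ⌊x⌋₊) (by omega) hsub
      (A₁ := r * (6 * (32 * q ^ K * p * r) * (X / w))) (A₂ := 1) (A₃ := 1)
      (by
        refine (lv_card (by omega) hrk0 (by linarith)).trans ?_
        apply mul_le_mul_of_nonneg_left _ hr0.le
        have e : 6 * X / (r : ℝ) ^ k₀ = 6 * (X / (r : ℝ) ^ k₀) := by ring
        rw [e]
        linarith) (by simp) (by simp)
    simpa using hb

end Pool.Agent.Helper97.TB
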