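import Pool.Agent.Helper97.TB.Chain

open Finset

namespace Pool.Agent.Helper97.TB

lemma Sub_pow {p : ℕ} (hp : Odd p) {i j : ℕ} (hij : j < i) : Sub ((p : ℝ) ^ i) ((p : ℝ) ^ j) := by
  have hp0 : 0 < p := hp.pos
  have hodd : Odd (p ^ (i - j)) := hp.pow
  obtain ⟨c, hc⟩ := hodd
  refine ⟨c, ?_, by positivity⟩
  have h1 : (p : ℝ) ^ i = p ^ (i - j) * p ^ j := by
    rw [← pow_add]
    congr 1
    omega
  rw [h1]
  have h2 : (p : ℝ) ^ (i - j) = 2 * c + 1 := by exact_mod_cast hc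
  rw [h2]

open Classical in
/-- descending list of the exponents `< i₀` with property `K` -/
noncomputable def exps (i₀ : ℕ) (K : ℕ → Prop) : List ℕ :=
  (List.range i₀).reverse.filter (fun i => decide (K i))

lemma mem_exps {i₀ : ℕ} {K : ℕ → Prop} {i : ℕ} : i ∈ exps i₀ K ↔ i < i₀ ∧ K i := by
  classical
  unfold exps
  simp

lemma pairwise_exps (i₀ : ℕ) (K : ℕ → Prop) : (i₀ :: exps i₀ K).Pairwise (· > ·) := by
  classical
  rw [List.pairwise_cons]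
  refine ⟨fun a ha => (mem_exps.1 ha).1, ?_⟩
  unfold exps
  apply List.Pairwise.filter
  rw [List.pairwise_reverse]
  exact List.pairwise_lt_range

lemma pairwise_pow {p : ℕ} (hp : Odd p) (i₀ : ℕ) (K : ℕ → Prop) :
    (((p : ℝ) ^ i₀) :: (exps i₀ K).map (fun i => (p : ℝ) ^ i)).Pairwise Sub := by
  have h := pairwise_exps i₀ K
  have h2 : ((i₀ :: exps i₀ K).map (fun i => (p : ℝ) ^ i)).Pairwise Sub := by
    rw [List.pairwise_map]
    exact h.imp fun {a b} hab => Sub_pow hp hab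
  simpa using h2

/-- The window lemma. -/
theorem window {p q : ℕ} (hp : Odd p) (hq : Odd q) (hp1 : 1 < p) (hq1 : 1 < q) {δ w : ℝ} (hδ : 0 ≤ δ)
    (hδw : 4 * δ ≤ w) {keep : ℕ → Prop}
    (hkeep : ∀ i, keep i → w ≤ (p : ℝ) ^ i → ∀ j, 4 * δ ≤ |(p : ℝ) ^ i - (q : ℝ) ^ j|)
    {i₀ : ℕ} (hi₀ : keep i₀) (hwi : w ≤ (p : ℝ) ^ i₀) {T : ℝ} (hT : (q : ℝ) * p ^ i₀ ≤ T) (x₀ : ℝ) :
    ∃ x, x₀ ≤ x ∧ x + δ ≤ x₀ + 2 * T ∧
      (∀ i ≤ i₀, keep i → w ≤ (p : ℝ) ^ i → Good ((p : ℝ) ^ i) δ x) ∧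
      (∀ j, (q : ℝ) ^ j ≤ p ^ i₀ → w ≤ (q : ℝ) ^ j → Good ((q : ℝ) ^ j) δ x) := by
  have hp0 : (0 : ℝ) < p := by exact_mod_cast (show 0 < p by omega)
  have hq0 : (0 : ℝ) < q := by exact_mod_cast (show 0 < q by omega)
  have hq1R : (1 : ℝ) < q := by exact_mod_cast hq1
  have hex : ∃ j, (p : ℝ) ^ i₀ ≤ (q : ℝ) ^ j := by
    obtain ⟨j, hj⟩ := pow_unbounded_of_one_lt ((p : ℝ) ^ i₀) hq1R
    exact ⟨j, hj.le⟩
  classical
  set j₀ := Nat.find hex with hj₀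
  have hj1 : (p : ℝ) ^ i₀ ≤ (q : ℝ) ^ j₀ := Nat.find_spec hex
  have hj2 : ∀ j < j₀, (q : ℝ) ^ j < (p : ℝ) ^ i₀ := fun j hj => not_le.1 (Nat.find_min hex hj)
  have hpi : (1 : ℝ) ≤ (p : ℝ) ^ i₀ := one_le_pow₀ (by exact_mod_cast hp1.le)
  have htT : (q : ℝ) ^ j₀ ≤ T := by
    refine le_trans ?_ hT
    rcases Nat.eq_zero_or_pos j₀ with h | h
    · rw [h, pow_zero]
      nlinarith
    · have h1 := hj2 (j₀ - 1) (by omega)
      have h2 : (q : ℝ) ^ j₀ = q * q ^ (j₀ - 1) := by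
        rw [← pow_succ']
        congr 1
        omega
      rw [h2]
      exact mul_le_mul_of_nonneg_left h1.le hq0.le
  set s : ℝ := (p : ℝ) ^ i₀ with hs
  set t : ℝ := (q : ℝ) ^ j₀ with ht
  have hs0 : 0 < s := by positivity
  have ht0 : 0 < t := by positivity
  set KP : ℕ → Prop := fun i => keep i ∧ w ≤ (p : ℝ) ^ i with hKP
  set KQ : ℕ → Prop := fun j => w ≤ (q : ℝ) ^ j with hKQ
  set ls := (exps i₀ KP).map (fun i => (p : ℝ) ^ i) with hls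
  set lt := (exps j₀ KQ).map (fun j => (q : ℝ) ^ j) with hlt
  have memS : ∀ u ∈ s :: ls, ∃ i, keep i ∧ w ≤ (p : ℝ) ^ i ∧ u = (p : ℝ) ^ i := by
    intro u hu
    rcases List.mem_cons.1 hu with rfl | hu
    · exact ⟨i₀, hi₀, hwi, rfl⟩
    · obtain ⟨i, hi, rfl⟩ := List.mem_map.1 hu
      exact ⟨i, (mem_exps.1 hi).2.1, (mem_exps.1 hi).2.2, rfl⟩
  have memT : ∀ v ∈ t :: lt, ∃ j, w ≤ (q : ℝ) ^ j ∧ v = (q : ℝ) ^ j := by
    intro v hv
    rcases List.mem_cons.1 hv with rfl | hv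
    · exact ⟨j₀, hwi.trans hj1, rfl⟩
    · obtain ⟨j, hj, rfl⟩ := List.mem_map.1 hv
      exact ⟨j, (mem_exps.1 hj).2, rfl⟩
  have hsep : ∀ u ∈ s :: ls, ∀ v ∈ t :: lt,
      (u ≤ v → u + 4 * δ ≤ v) ∧ (v ≤ u → v + 4 * δ ≤ u) := by
    intro u hu v hv
    obtain ⟨i, hi1, hi2, rfl⟩ := memS u hu
    obtain ⟨j, _, rfl⟩ := memT v hv
    have h := hkeep i hi1 hi2 j
    constructor
    · intro hle
      rw [abs_of_nonpos (by linarith)] at h
      linarith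
    · intro hle
      rw [abs_of_nonneg (by linarith)] at h
      linarith
  have hs4 : ∀ u ∈ s :: ls, 4 * δ ≤ u := by
    intro u hu
    obtain ⟨i, _, hi2, rfl⟩ := memS u hu
    linarith
  have ht4 : ∀ v ∈ t :: lt, 4 * δ ≤ v := by
    intro v hv
    obtain ⟨j, hj, rfl⟩ := memT v hv
    linarith
  have hst : s + 4 * δ ≤ t := (hsep s (by simp) t (by simp)).1 hj1
  have hs4' := hs4 s (by simp)
  -- the initial linked waves
  set m' := ⌈x₀ / t⌉ with hm'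
  have hm1 : x₀ ≤ m' * t := by
    have := Int.le_ceil (x₀ / t)
    rwa [div_le_iff₀ ht0] at this
  have hm2 : (m' : ℝ) * t < x₀ + t := by
    have := Int.ceil_lt_add_one (x₀ / t)
    rw [← hm'] at this
    have h2 : (m' : ℝ) - 1 < x₀ / t := by linarith
    rw [lt_div_iff₀ ht0] at h2
    linarith
  set R : ℝ := m' * t + t / 2 - δ with hR
  set m := ⌊R / s⌋ with hm
  have hmR : (m : ℝ) * s ≤ R := by
    have := Int.floor_le (R / s)
    rwa [le_div_iff₀ hs0] at this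
  have hmR2 : R < (m + 1) * s := by
    have := Int.lt_floor_add_one (R / s)
    rwa [div_lt_iff₀ hs0] at this
  have hlink : (m' : ℝ) * t ≤ m * s + s / 2 - δ := by
    by_contra hcon
    push Not at hcon
    linarith
  obtain ⟨x, hx1, hx2, hx3, hx4⟩ := chain hδ (ls.length + lt.length) s t ls lt rfl
    (pairwise_pow hp i₀ KP) (pairwise_pow hq j₀ KQ) hsep hs4 ht4 hs0 ht0
    (by
      intro u hu
      obtain ⟨i, hi, rfl⟩ := List.mem_map.1 hu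
      have h1 : (p : ℝ) ^ i ≤ (p : ℝ) ^ i₀ :=
        pow_le_pow_right₀ (by exact_mod_cast hp1.le) (mem_exps.1 hi).1.le
      exact h1.trans hj1)
    (by
      intro v hv
      obtain ⟨j, hj, rfl⟩ := List.mem_map.1 hv
      exact (hj2 j (mem_exps.1 hj).1).le) m m' hmR hlink
  refine ⟨x, hm1.trans hx2.1, ?_, ?_, ?_⟩
  · have h1 := hx2.2
    linarith
  · intro i hi hk hw
    rcases Nat.lt_or_ge i i₀ with h | h
    · exact hx3 _ (List.mem_map.2 ⟨i, mem_exps.2 ⟨h, hk, hw⟩, rfl⟩)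
    · have : i = i₀ := le_antisymm hi h
      subst this
      exact ⟨m, hx1⟩
  · intro j hj hw
    rcases Nat.lt_or_ge j j₀ with h | h
    · exact hx4 _ (List.mem_map.2 ⟨j, mem_exps.2 ⟨h, hw⟩, rfl⟩)
    · have h1 : (q : ℝ) ^ j₀ ≤ (q : ℝ) ^ j := pow_le_pow_right₀ hq1R.le h
      have h2 : (q : ℝ) ^ j = (q : ℝ) ^ j₀ := le_antisymm (hj.trans hj1) h1
      rw [h2]
      exact ⟨m', hx2⟩

/-- near resonances are rare -/
theorem resonance {p q : ℕ} (hp1 : 3 ≤ p) (hq1 : 3 ≤ q) (hcop : Nat.Coprime p q) {K : ℕ}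
    {δ w : ℝ} (hδ0 : 0 ≤ δ) (hδ : 4 * δ ≤ w / (16 * p ^ K))
    {i i' j j' : ℕ} (hii : i < i') (hiK : i' ≤ i + K) (hw : w ≤ (p : ℝ) ^ i)
    (h : |(p : ℝ) ^ i - (q : ℝ) ^ j| < 4 * δ) (h' : |(p : ℝ) ^ i' - (q : ℝ) ^ j'| < 4 * δ) :
    False := by
  have hp0 : (0 : ℝ) < p := by exact_mod_cast (show 0 < p by omega)
  have hp3 : (3 : ℝ) ≤ p := by exact_mod_cast hp1
  have hq3 : (3 : ℝ) ≤ q := by exact_mod_cast hq1
  have hpK : (1 : ℝ) ≤ (p : ℝ) ^ K := one_le_pow₀ (by linarith)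
  set u : ℝ := (p : ℝ) ^ i with hu
  have hu0 : 0 < u := by positivity
  obtain ⟨a, ha⟩ : ∃ a, i' = i + a := ⟨i' - i, by omega⟩
  have ha1 : 1 ≤ a := by omega
  have haK : a ≤ K := by omega
  have hpa : (p : ℝ) ^ a ≤ (p : ℝ) ^ K := pow_le_pow_right₀ (by linarith) haK
  have hpa3 : (3 : ℝ) ≤ (p : ℝ) ^ a := by
    calc (3 : ℝ) ≤ p := hp3
      _ = (p : ℝ) ^ 1 := (pow_one _).symm
      _ ≤ _ := pow_le_pow_right₀ (by linarith) ha1
  have hu' : (p : ℝ) ^ i' = p ^ a * u := by rw [ha, pow_add, mul_comm]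
  have hη : 4 * δ * (16 * p ^ K) ≤ u := by
    have : 4 * δ ≤ u / (16 * p ^ K) := hδ.trans (by gcongr)
    rwa [le_div_iff₀ (by positivity)] at this
  have h4 : 4 * δ * 16 ≤ u := by
    have : 4 * δ * 16 * 1 ≤ 4 * δ * 16 * p ^ K := mul_le_mul_of_nonneg_left hpK (by positivity)
    linarith
  rw [abs_lt] at h h'
  rw [hu'] at h'
  set v : ℝ := (q : ℝ) ^ j with hv
  set v' : ℝ := (q : ℝ) ^ j' with hv'
  -- |p^a v - v'| is small
  have hd1 : p ^ a * v - v' < u / 4 := by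
    have e1 : (p : ℝ) ^ a * (v - u) ≤ p ^ a * (4 * δ) :=
      mul_le_mul_of_nonneg_left (by linarith) (by positivity)
    have e2 : (p : ℝ) ^ a * (4 * δ) ≤ p ^ K * (4 * δ) :=
      mul_le_mul_of_nonneg_right hpa (by positivity)
    nlinarith
  have hd2 : v' - p ^ a * v < u / 4 := by
    have e1 : (p : ℝ) ^ a * (u - v) ≤ p ^ a * (4 * δ) :=
      mul_le_mul_of_nonneg_left (by linarith) (by positivity)
    have e2 : (p : ℝ) ^ a * (4 * δ) ≤ p ^ K * (4 * δ) :=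
      mul_le_mul_of_nonneg_right hpa (by positivity)
    nlinarith
  have hvlow : u * (15 / 16) ≤ v := by linarith
  have hvhigh : v ≤ u * (17 / 16) := by linarith
  have hjj : j < j' := by
    by_contra hcon
    push Not at hcon
    have h1 : v' ≤ v := pow_le_pow_right₀ (by linarith) hcon
    nlinarith
  obtain ⟨b, hb⟩ : ∃ b, j' = j + b := ⟨j' - j, by omega⟩
  have hb1 : 1 ≤ b := by omega
  have hvv : v' = q ^ b * v := by rw [hv', hb, pow_add, mul_comm]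
  have hne : (p ^ a : ℕ) ≠ q ^ b := by
    intro heq
    have h1 : Nat.Coprime (p ^ a) (q ^ b) := Nat.Coprime.pow a b hcop
    rw [← heq, Nat.coprime_self] at h1
    have h2 : p = 1 := by
      rcases (Nat.pow_eq_one).1 h1 with h | h
      · exact h
      · omega
    omega
  have hv0 : 0 < v := by linarith
  rw [hvv] at hd1 hd2
  rcases lt_or_gt_of_ne hne with hlt | hgt
  · have h1 : (p ^ a : ℕ) + 1 ≤ q ^ b := hlt
    have h2 : (p : ℝ) ^ a + 1 ≤ (q : ℝ) ^ b := by exact_mod_cast h1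
    nlinarith
  · have h1 : (q ^ b : ℕ) + 1 ≤ p ^ a := hgt
    have h2 : (q : ℝ) ^ b + 1 ≤ (p : ℝ) ^ a := by exact_mod_cast h1
    nlinarith

end Pool.Agent.Helper97.TB
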